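import Pool.Agent.Q245.STS.Hall
import Pool.Agent.TH658.Sos.ImGrp

/-!
# The affine system acts on the block graphs
-/

set_option autoImplicit false
set_option linter.unusedSectionVars false

namespace Pool.Agent.Q245.STS

open Finset Module Pool.Agent.W879.GW Pool.Agent.TH658.Sos

section

variable {F A : Type} [Field F] [AddCommGroup A] [Module F A] {g : ℕ} [FiniteDimensional F A]
  {B : Submodule F (Fin g → Dual F A)}

theorem T_cB_add (Z Z' : A →ₗ[F] B) (x y : A) :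
    T (cB (Z + Z')) x y = T (cB Z) x y + T (cB Z') x y := by
  rw [cB_add, map_add]
  rfl

theorem T_cB_smul (a : F) (Z : A →ₗ[F] B) (x y : A) :
    T (cB (a • Z)) x y = a • T (cB Z) x y := by
  have h : cB (a • Z) = a • cB Z := rfl
  rw [h, map_smul]
  rfl

/-- The maps without effect on the alternating map on `U`. -/
def DU (B : Submodule F (Fin g → Dual F A)) (U : Submodule F A) : Submodule F (A →ₗ[F] B) where
  carrier := {Z | ∀ x ∈ U, ∀ y ∈ U, T (cB Z) x y = 0}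
  add_mem' := by
    intro Z Z' h h' x hx y hy
    rw [T_cB_add, h x hx y hy, h' x hx y hy, add_zero]
  zero_mem' := by
    intro x hx y hy
    have h : cB (0 : A →ₗ[F] B) = 0 := rfl
    rw [h, map_zero]
    rfl
  smul_mem' := by
    intro a Z h x hx y hy
    rw [T_cB_smul, h x hx y hy, smul_zero]

theorem mem_DU {U : Submodule F A} {Z : A →ₗ[F] B} :
    Z ∈ DU B U ↔ ∀ x ∈ U, ∀ y ∈ U, T (cB Z) x y = 0 := Iff.rfl

theorem exists_proj (B : Submodule F (Fin g → Dual F A)) (U : Submodule F A) :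
    ∃ p : (A →ₗ[F] B) →ₗ[F] (A →ₗ[F] B), (∀ Z, p Z ∈ DU B U) ∧ ∀ Z ∈ DU B U, p Z = Z := by
  obtain ⟨h, hh⟩ := LinearMap.exists_leftInverse_of_injective (DU B U).subtype
    (Submodule.ker_subtype _)
  refine ⟨(DU B U).subtype ∘ₗ h, fun Z => (h Z).2, fun Z hZ => ?_⟩
  exact congrArg Subtype.val (LinearMap.congr_fun hh ⟨Z, hZ⟩)

/-- A projection on `DU`. -/
noncomputable def pU (B : Submodule F (Fin g → Dual F A)) (U : Submodule F A) :
    (A →ₗ[F] B) →ₗ[F] (A →ₗ[F] B) := (exists_proj B U).choose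

theorem pU_mem (U : Submodule F A) (Z : A →ₗ[F] B) : pU B U Z ∈ DU B U :=
  (exists_proj B U).choose_spec.1 Z

theorem pU_eq {U : Submodule F A} {Z : A →ₗ[F] B} (h : Z ∈ DU B U) : pU B U Z = Z :=
  (exists_proj B U).choose_spec.2 Z h

/-- The corrected map: a solution on `U`. -/
noncomputable def eff (U : Submodule F A) (M₀ M : A →ₗ[F] B) : A →ₗ[F] B :=
  M₀ + pU B U (M + (-1 : F) • M₀)

theorem eff_sol {U : Submodule F A} {M₀ : A →ₗ[F] B} {f : A →ₗ[F] A →ₗ[F] (Fin g → F)}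
    (h₀ : ∀ x ∈ U, ∀ y ∈ U, T (cB M₀) x y = f x y) (M : A →ₗ[F] B) :
    ∀ x ∈ U, ∀ y ∈ U, T (cB (eff U M₀ M)) x y = f x y := by
  intro x hx y hy
  rw [eff, T_cB_add, h₀ x hx y hy, pU_mem U _ x hx y hy, add_zero]

theorem eff_eq {U : Submodule F A} {M₀ M : A →ₗ[F] B} {f : A →ₗ[F] A →ₗ[F] (Fin g → F)}
    (h₀ : ∀ x ∈ U, ∀ y ∈ U, T (cB M₀) x y = f x y)
    (h : ∀ x ∈ U, ∀ y ∈ U, T (cB M) x y = f x y) : eff U M₀ M = M := by
  have h1 : M + (-1 : F) • M₀ ∈ DU B U := by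
    intro x hx y hy
    rw [T_cB_add, T_cB_smul, h x hx y hy, h₀ x hx y hy]
    module
  rw [eff, pU_eq h1]
  module

theorem eff_add (U : Submodule F A) (M₀ M h : A →ₗ[F] B) :
    eff U M₀ (M + h) = eff U M₀ M + pU B U h := by
  unfold eff
  have h1 : M + h + (-1 : F) • M₀ = (M + (-1 : F) • M₀) + h := by module
  rw [h1, map_add]
  module

end

section

variable {A : Type} [AddCommGroup A] [Module (ZMod 3) A] {g : ℕ}
  {B : Submodule (ZMod 3) (Fin g → Dual (ZMod 3) A)}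

/-- The points. -/
abbrev Pt (B : Submodule (ZMod 3) (Fin g → Dual (ZMod 3) A)) : Type :=
  ZMod 3 × (A × B) × (Fin g → ZMod 3)

/-- The shear of the points. -/
def ps (M : A →ₗ[ZMod 3] B) : Pt B ≃ Pt B where
  toFun P := (P.1, (P.2.1.1, P.2.1.2 + M P.2.1.1), P.2.2)
  invFun P := (P.1, (P.2.1.1, P.2.1.2 - M P.2.1.1), P.2.2)
  left_inv P := by
    refine Prod.ext rfl (Prod.ext (Prod.ext rfl ?_) rfl)
    show P.2.1.2 + M P.2.1.1 - M P.2.1.1 = P.2.1.2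
    abel
  right_inv P := by
    refine Prod.ext rfl (Prod.ext (Prod.ext rfl ?_) rfl)
    show P.2.1.2 - M P.2.1.1 + M P.2.1.1 = P.2.1.2
    abel

theorem ps_ac (M : A →ₗ[ZMod 3] B) (P : Pt B) : (ps M P).2.1.1 = P.2.1.1 := rfl

theorem ps_symm_ac (M : A →ₗ[ZMod 3] B) (P : Pt B) : ((ps M).symm P).2.1.1 = P.2.1.1 := rfl

theorem ps_congr {M M' : A →ₗ[ZMod 3] B} {P : Pt B} (h : M P.2.1.1 = M' P.2.1.1) :
    ps M P = ps M' P := by
  refine Prod.ext rfl (Prod.ext (Prod.ext rfl ?_) rfl)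
  show P.2.1.2 + M P.2.1.1 = P.2.1.2 + M' P.2.1.1
  rw [h]

theorem ps_torsor (M₁ M₂ h : A →ₗ[ZMod 3] B) (P : Pt B) :
    ps (M₁ + h) P = ps M₁ ((ps M₂).symm (ps (M₂ + h) P)) := by
  refine Prod.ext rfl (Prod.ext (Prod.ext rfl ?_) rfl)
  show P.2.1.2 + (M₁ P.2.1.1 + h P.2.1.1) =
    P.2.1.2 + (M₂ P.2.1.1 + h P.2.1.1) - M₂ P.2.1.1 + M₁ P.2.1.1
  abel

variable {f : A →ₗ[ZMod 3] A →ₗ[ZMod 3] (Fin g → ZMod 3)}

theorem ps_op (M : A →ₗ[ZMod 3] B) (P Q : Pt B)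
    (h : T (cB M) P.2.1.1 Q.2.1.1 = f P.2.1.1 Q.2.1.1) :
    ps M (op (bet B f) P Q) = op (bet B 0) (ps M P) (ps M Q) := by
  refine Prod.ext rfl (Prod.ext (Prod.ext rfl ?_) ?_)
  · show -P.2.1.2 - Q.2.1.2 + M (-P.2.1.1 - Q.2.1.1) =
      -(P.2.1.2 + M P.2.1.1) - (Q.2.1.2 + M Q.2.1.1)
    rw [map_sub, map_neg]
    abel
  · show -P.2.2 - Q.2.2 - (P.1 - Q.1) • (bet B f).fn P.2.1 Q.2.1 =
      -P.2.2 - Q.2.2 - (P.1 - Q.1) • (bet B 0).fn (ps M P).2.1 (ps M Q).2.1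
    have h1 : (bet B 0).fn (ps M P).2.1 (ps M Q).2.1 = (bet B f).fn P.2.1 Q.2.1 := by
      rw [bet_apply, bet_apply, ← h]
      show (0 : Fin g → ZMod 3) + (evB ((P.2.1.2 + M P.2.1.1 : B) : Fin g → Dual (ZMod 3) A)
        Q.2.1.1 - evB ((Q.2.1.2 + M Q.2.1.1 : B) : Fin g → Dual (ZMod 3) A) P.2.1.1) =
        (evB ((M P.2.1.1 : B) : Fin g → Dual (ZMod 3) A) Q.2.1.1 -
        evB ((M Q.2.1.1 : B) : Fin g → Dual (ZMod 3) A) P.2.1.1) +
        (evB (P.2.1.2 : Fin g → Dual (ZMod 3) A) Q.2.1.1 -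
        evB (Q.2.1.2 : Fin g → Dual (ZMod 3) A) P.2.1.1)
      rw [Submodule.coe_add, Submodule.coe_add, map_add, map_add, LinearMap.add_apply,
        LinearMap.add_apply]
      abel
    rw [h1]

/-- The level of a set of points. -/
def sp3 (b : Finset (Pt B)) : Submodule (ZMod 3) A :=
  Submodule.span (ZMod 3) ((fun P : Pt B => P.2.1.1) '' (b : Set (Pt B)))

theorem mem_sp3 {b : Finset (Pt B)} {P : Pt B} (h : P ∈ b) : P.2.1.1 ∈ sp3 b :=
  Submodule.subset_span ⟨P, h, rfl⟩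

variable [DecidableEq A] [DecidableEq B]

theorem sp3_image (M : A →ₗ[ZMod 3] B) (b : Finset (Pt B)) : sp3 (b.image (ps M)) = sp3 b := by
  unfold sp3
  rw [coe_image, Set.image_image]
  rfl

theorem sp3_image_symm (M : A →ₗ[ZMod 3] B) (b : Finset (Pt B)) :
    sp3 (b.image (ps M).symm) = sp3 b := by
  unfold sp3
  rw [coe_image, Set.image_image]
  rfl

variable [Fintype A] [Fintype B]

theorem finrank_sp3 {b : Finset (Pt B)} (hb : b ∈ lines (bet B f)) :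
    finrank (ZMod 3) (sp3 b) ≤ 2 := by
  obtain ⟨P, Q, -, rfl⟩ := mem_lines.1 hb
  have h1 : sp3 (ln (bet B f) P Q) ≤ Submodule.span (ZMod 3)
      (({P.2.1.1, Q.2.1.1} : Finset A) : Set A) := by
    refine Submodule.span_le.2 ?_
    rintro _ ⟨R, hR, rfl⟩
    have hP : P.2.1.1 ∈ Submodule.span (ZMod 3) (({P.2.1.1, Q.2.1.1} : Finset A) : Set A) :=
      Submodule.subset_span (by simp)
    have hQ : Q.2.1.1 ∈ Submodule.span (ZMod 3) (({P.2.1.1, Q.2.1.1} : Finset A) : Set A) :=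
      Submodule.subset_span (by simp)
    rcases mem_ln.1 (mem_coe.1 hR) with rfl | rfl | rfl
    · exact hP
    · exact hQ
    · exact Submodule.sub_mem _ (Submodule.neg_mem _ hP) hQ
  exact (Submodule.finrank_mono h1).trans ((finrank_span_finset_le_card _).trans card_le_two)

theorem image_mem {b : Finset (Pt B)} (hb : b ∈ lines (bet B f)) {M : A →ₗ[ZMod 3] B}
    (hM : ∀ x ∈ sp3 b, ∀ y ∈ sp3 b, T (cB M) x y = f x y) :
    b.image (ps M) ∈ lines (bet B 0) := by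
  obtain ⟨P, Q, h, rfl⟩ := mem_lines.1 hb
  refine mem_lines.2 ⟨ps M P, ps M Q, fun h' => h ((ps M).injective h'), ?_⟩
  unfold ln
  rw [image_insert, image_insert, image_singleton, ps_op M P Q (hM _ (mem_sp3 (mem_ln.2
    (Or.inl rfl))) _ (mem_sp3 (mem_ln.2 (Or.inr (Or.inl rfl)))))]

theorem image_symm_mem {b : Finset (Pt B)} (hb : b ∈ lines (bet B 0)) {M : A →ₗ[ZMod 3] B}
    (hM : ∀ x ∈ sp3 b, ∀ y ∈ sp3 b, T (cB M) x y = f x y) :
    b.image (ps M).symm ∈ lines (bet B f) := by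
  obtain ⟨P, Q, h, rfl⟩ := mem_lines.1 hb
  refine mem_lines.2 ⟨(ps M).symm P, (ps M).symm Q, fun h' => h ((ps M).symm.injective h'), ?_⟩
  have h3 : T (cB M) P.2.1.1 Q.2.1.1 = f P.2.1.1 Q.2.1.1 :=
    hM _ (mem_sp3 (mem_ln.2 (Or.inl rfl))) _ (mem_sp3 (mem_ln.2 (Or.inr (Or.inl rfl))))
  have h2 : T (cB M) ((ps M).symm P).2.1.1 ((ps M).symm Q).2.1.1 =
      f ((ps M).symm P).2.1.1 ((ps M).symm Q).2.1.1 := h3
  have h1 : (ps M).symm (op (bet B 0) P Q) = op (bet B f) ((ps M).symm P) ((ps M).symm Q) := by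
    rw [Equiv.symm_apply_eq, ps_op M _ _ h2, Equiv.apply_symm_apply, Equiv.apply_symm_apply]
  unfold ln
  rw [image_insert, image_insert, image_singleton, h1]

/-- The bijection of the blocks given by solutions `E` on the levels. -/
def bl (E : Submodule (ZMod 3) A → (A →ₗ[ZMod 3] B))
    (hE : ∀ U : Submodule (ZMod 3) A, finrank (ZMod 3) U ≤ 2 → ∀ x ∈ U, ∀ y ∈ U,
      T (cB (E U)) x y = f x y) : lines (bet B f) ≃ lines (bet B 0) where
  toFun b := ⟨b.1.image (ps (E (sp3 b.1))), image_mem b.2 (hE _ (finrank_sp3 b.2))⟩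
  invFun b := ⟨b.1.image (ps (E (sp3 b.1))).symm, image_symm_mem b.2 (hE _ (finrank_sp3 b.2))⟩
  left_inv b := by
    refine Subtype.ext ?_
    show (b.1.image (ps (E (sp3 b.1)))).image
      (ps (E (sp3 (b.1.image (ps (E (sp3 b.1))))))).symm = b.1
    rw [sp3_image, image_image, Equiv.symm_comp_self, image_id]
  right_inv b := by
    refine Subtype.ext ?_
    show (b.1.image (ps (E (sp3 b.1))).symm).image
      (ps (E (sp3 (b.1.image (ps (E (sp3 b.1))).symm)))) = b.1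
    rw [sp3_image_symm, image_image, Equiv.self_comp_symm, image_id]

theorem bl_coe (E : Submodule (ZMod 3) A → (A →ₗ[ZMod 3] B))
    (hE : ∀ U : Submodule (ZMod 3) A, finrank (ZMod 3) U ≤ 2 → ∀ x ∈ U, ∀ y ∈ U,
      T (cB (E U)) x y = f x y) (b : lines (bet B f)) :
    (bl E hE b).1 = b.1.image (ps (E (sp3 b.1))) := rfl

theorem bl_symm_coe (E : Submodule (ZMod 3) A → (A →ₗ[ZMod 3] B))
    (hE : ∀ U : Submodule (ZMod 3) A, finrank (ZMod 3) U ≤ 2 → ∀ x ∈ U, ∀ y ∈ U,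
      T (cB (E U)) x y = f x y) (b : lines (bet B 0)) :
    ((bl E hE).symm b).1 = b.1.image (ps (E (sp3 b.1))).symm := rfl

variable [FiniteDimensional (ZMod 3) A] {q : Fin g → (Dual (ZMod 3) A →ₗ[ZMod 3] A)}

section

variable (halt : ∀ (i : Fin g) (φ : Dual (ZMod 3) A), φ (q i φ) = 0) {K : ℕ}
  (hE : Expands q (4 * K)) (hB : B = LinearMap.ker (tot q))
  (φ₀ : Dual (ZMod 3) A) (c₀ : Fin g → Dual (ZMod 3) A) (hf : f = T (φ₀.smulRight c₀))

/-- The solution on the level `U` given by `M`. -/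
noncomputable def EE (M : A →ₗ[ZMod 3] B) (U : Submodule (ZMod 3) A) : A →ₗ[ZMod 3] B :=
  eff U ((grSys halt hE B hB f φ₀ c₀ hf).pt U) M

theorem sol_eq (hK : 2 ≤ K) {U : Submodule (ZMod 3) A} {M : A →ₗ[ZMod 3] B}
    (hM : M ∈ (grSys halt hE B hB f φ₀ c₀ hf).Sol U) :
    ∀ x ∈ U, ∀ y ∈ U, T (cB M) x y = f x y := by
  intro x hx y hy
  exact eq_on (by omega) f U (cB M) hM hx hy

theorem pt_sol (hK : 2 ≤ K) {U : Submodule (ZMod 3) A} (hU : finrank (ZMod 3) U ≤ 2) :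
    ∀ x ∈ U, ∀ y ∈ U, T (cB ((grSys halt hE B hB f φ₀ c₀ hf).pt U)) x y = f x y := by
  refine sol_eq halt hE hB φ₀ c₀ hf hK ?_
  exact (grSys halt hE B hB f φ₀ c₀ hf).pt_mem
    ((grSys halt hE B hB f φ₀ c₀ hf).nonempty U (hU.trans hK))

theorem EE_sol (hK : 2 ≤ K) (M : A →ₗ[ZMod 3] B) (U : Submodule (ZMod 3) A)
    (hU : finrank (ZMod 3) U ≤ 2) :
    ∀ x ∈ U, ∀ y ∈ U, T (cB (EE halt hE hB φ₀ c₀ hf M U)) x y = f x y :=
  eff_sol (pt_sol halt hE hB φ₀ c₀ hf hK hU) M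

theorem EE_eq (hK : 2 ≤ K) (M : A →ₗ[ZMod 3] B) (U : Submodule (ZMod 3) A)
    (hU : finrank (ZMod 3) U ≤ 2) (hM : M ∈ (grSys halt hE B hB f φ₀ c₀ hf).Sol U) :
    EE halt hE hB φ₀ c₀ hf M U = M :=
  eff_eq (pt_sol halt hE hB φ₀ c₀ hf hK hU) (sol_eq halt hE hB φ₀ c₀ hf hK hM)

theorem blockAdj_iff {D E : Finset (Finset (Pt B))} (e : Pt B ≃ Pt B) (u v : D) (u' v' : E)
    (hu : u'.1 = u.1.image e) (hv : v'.1 = v.1.image e) :
    (blockGraph D).Adj u v ↔ (blockGraph E).Adj u' v' := by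
  show (u ≠ v ∧ ∃ x, x ∈ u.1 ∧ x ∈ v.1) ↔ (u' ≠ v' ∧ ∃ x, x ∈ u'.1 ∧ x ∈ v'.1)
  refine and_congr (not_congr ⟨fun h => ?_, fun h => ?_⟩) ⟨?_, ?_⟩
  · rw [h] at hu
    exact Subtype.ext (hu.trans hv.symm)
  · have h1 : u.1.image e = v.1.image e := by rw [← hu, ← hv, h]
    exact Subtype.ext (image_injective e.injective h1)
  · rintro ⟨x, h1, h2⟩
    refine ⟨e x, ?_, ?_⟩
    · rw [hu]
      exact mem_image_of_mem _ h1
    · rw [hv]
      exact mem_image_of_mem _ h2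
  · rintro ⟨x, h1, h2⟩
    rw [hu, mem_image] at h1
    rw [hv, mem_image] at h2
    obtain ⟨y, hy, hyx⟩ := h1
    obtain ⟨z, hz, hzx⟩ := h2
    have h3 : y = z := e.injective (hyx.trans hzx.symm)
    subst h3
    exact ⟨y, hy, hz⟩

/-- The bijections of the blocks. -/
noncomputable def stAct (hK : 2 ≤ K) : Act (grSys halt hE B hB f φ₀ c₀ hf)
    (blockGraph (lines (bet B f))) (blockGraph (lines (bet B 0))) where
  b M := bl (EE halt hE hB φ₀ c₀ hf M) (EE_sol halt hE hB φ₀ c₀ hf hK M)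
  lv u := sp3 u.1
  lv' u := sp3 u.1
  c := 2
  inv M n u hn := by
    have h1 : n ∈ DU B (sp3 u.1) := by
      intro x hx y hy
      have h2 : n x = 0 := om_eq (Z' := 0) fun i z => by
        rw [hn x hx i z]
        rfl
      have h3 : n y = 0 := om_eq (Z' := 0) fun i z => by
        rw [hn y hy i z]
        rfl
      funext i
      rw [T_apply]
      show ((n x : B) : Fin g → Dual (ZMod 3) A) i y - ((n y : B) : Fin g → Dual (ZMod 3) A) i x = 0
      rw [h2, h3]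
      simp
    refine Subtype.ext ?_
    show u.1.image (ps (EE halt hE hB φ₀ c₀ hf (M + n) (sp3 u.1))) =
      u.1.image (ps (EE halt hE hB φ₀ c₀ hf M (sp3 u.1)))
    refine image_congr fun P hP => ps_congr ?_
    have h2 : n P.2.1.1 = 0 := om_eq (Z' := 0) fun i z => by
      rw [hn _ (mem_sp3 hP) i z]
      rfl
    unfold EE
    have h3 := eff_add (sp3 u.1) ((grSys halt hE B hB f φ₀ c₀ hf).pt (sp3 u.1)) M n
    have h4 := LinearMap.congr_fun h3 P.2.1.1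
    refine h4.trans ?_
    rw [pU_eq h1, LinearMap.add_apply, h2, add_zero]
  lev M u := sp3_image _ _
  size u := finrank_sp3 u.2
  iso u u' M hM := by
    have h1 : M ∈ (grSys halt hE B hB f φ₀ c₀ hf).Sol (sp3 u.1) :=
      (grSys halt hE B hB f φ₀ c₀ hf).Sol_anti _ _ le_sup_left hM
    have h2 : M ∈ (grSys halt hE B hB f φ₀ c₀ hf).Sol (sp3 u'.1) :=
      (grSys halt hE B hB f φ₀ c₀ hf).Sol_anti _ _ le_sup_right hM
    refine blockAdj_iff (ps M) u u' _ _ ?_ ?_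
    · rw [bl_coe, EE_eq halt hE hB φ₀ c₀ hf hK M _ (finrank_sp3 u.2) h1]
    · rw [bl_coe, EE_eq halt hE hB φ₀ c₀ hf hK M _ (finrank_sp3 u'.2) h2]

theorem stAct_torsor (hK : 2 ≤ K) : (stAct halt hE hB φ₀ c₀ hf hK).Torsor := by
  intro M h u
  refine Subtype.ext ?_
  show u.1.image (ps (EE halt hE hB φ₀ c₀ hf (M + h) (sp3 u.1))) =
    ((u.1.image (ps (EE halt hE hB φ₀ c₀ hf h (sp3 u.1)))).image
      (ps (EE halt hE hB φ₀ c₀ hf 0 (sp3 (u.1.image (ps (EE halt hE hB φ₀ c₀ hf h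
        (sp3 u.1))))))).symm).image
      (ps (EE halt hE hB φ₀ c₀ hf M (sp3 ((u.1.image (ps (EE halt hE hB φ₀ c₀ hf h
        (sp3 u.1)))).image (ps (EE halt hE hB φ₀ c₀ hf 0 (sp3 (u.1.image (ps
        (EE halt hE hB φ₀ c₀ hf h (sp3 u.1))))))).symm))))
  rw [sp3_image_symm, sp3_image, image_image, image_image]
  refine image_congr fun P hP => ?_
  have h1 := eff_add (sp3 u.1) ((grSys halt hE B hB f φ₀ c₀ hf).pt (sp3 u.1)) M h
  have h2 := eff_add (sp3 u.1) ((grSys halt hE B hB f φ₀ c₀ hf).pt (sp3 u.1)) 0 h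
  rw [zero_add] at h2
  show ps (eff (sp3 u.1) _ (M + h)) P = ps (eff (sp3 u.1) _ M)
    ((ps (eff (sp3 u.1) _ 0)).symm (ps (eff (sp3 u.1) _ h) P))
  rw [h1, h2]
  exact ps_torsor _ _ _ P

end

end

end Pool.Agent.Q245.STS
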