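import Mathlib

/-!
# Steiner triple systems and their block graphs
-/

set_option autoImplicit false
set_option linter.unusedSectionVars false

namespace Pool.Agent.Q245.STS

open Finset

/-- A Steiner triple system: a set of triples, any two points in exactly one of them. -/
def IsSTS {X : Type} (D : Finset (Finset X)) : Prop :=
  (∀ b ∈ D, b.card = 3) ∧ ∀ x y : X, x ≠ y → ∃! b, b ∈ D ∧ x ∈ b ∧ y ∈ b

/-- The block graph: the vertices are the triples, different triples with a common point are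
adjacent. -/
def blockGraph {X : Type} (D : Finset (Finset X)) : SimpleGraph D where
  Adj b c := b ≠ c ∧ ∃ x, x ∈ b.1 ∧ x ∈ c.1
  symm := ⟨fun _ _ h => ⟨h.1.symm, h.2.imp fun _ h' => ⟨h'.2, h'.1⟩⟩⟩
  loopless := ⟨fun _ h => h.1 rfl⟩

/-- A Hall triple system: a Steiner triple system in which every point is the only fixed point of
an automorphism of order two. -/
def IsHall {X : Type} [DecidableEq X] (D : Finset (Finset X)) : Prop :=
  IsSTS D ∧ ∀ x : X, ∃ σ : Equiv.Perm X, (∀ y, σ (σ y) = y) ∧ (∀ y, σ y = y ↔ y = x) ∧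
    ∀ b ∈ D, b.image σ ∈ D

theorem IsSTS.unique {X : Type} {D : Finset (Finset X)} (hD : IsSTS D) {b c : Finset X}
    (hb : b ∈ D) (hc : c ∈ D) {x y : X} (hxy : x ≠ y) (h1 : x ∈ b) (h2 : y ∈ b) (h3 : x ∈ c)
    (h4 : y ∈ c) : b = c :=
  (hD.2 x y hxy).unique ⟨hb, h1, h2⟩ ⟨hc, h3, h4⟩

section

variable {X Y : Type} [Fintype X] [DecidableEq X] [Fintype Y] [DecidableEq Y]
  {D : Finset (Finset X)} {E : Finset (Finset Y)}

/-- The blocks through a point. -/
def star (D : Finset (Finset X)) (x : X) : Finset D := univ.filter fun b => x ∈ b.1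

theorem mem_star (x : X) (b : D) : b ∈ star D x ↔ x ∈ b.1 := by simp [star]

theorem card_star (hD : IsSTS D) (x : X) : Fintype.card X ≤ 2 * (star D x).card + 1 := by
  have h1 : (univ : Finset X).erase x ⊆ (star D x).biUnion fun b => b.1.erase x := by
    intro y hy
    have hyx : y ≠ x := (mem_erase.1 hy).1
    obtain ⟨b, ⟨hb, hxb, hyb⟩, -⟩ := hD.2 x y hyx.symm
    exact mem_biUnion.2 ⟨⟨b, hb⟩, (mem_star x _).2 hxb, mem_erase.2 ⟨hyx, hyb⟩⟩
  have h2 := card_le_card h1
  have h3 : ((star D x).biUnion fun b => b.1.erase x).card ≤ (star D x).card * 2 :=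
    card_biUnion_le_card_mul _ _ _ fun b hb => by
      rw [card_erase_of_mem ((mem_star x b).1 hb), hD.1 _ b.2]
  rw [card_erase_of_mem (mem_univ x), card_univ] at h2
  have h4 : 0 < Fintype.card X := Fintype.card_pos_iff.2 ⟨x⟩
  omega

/-- Eight blocks that meet each other have a common point. -/
theorem exists_common (hE : IsSTS E) (S : Finset E) (hS : 8 ≤ S.card)
    (hm : ∀ b ∈ S, ∀ c ∈ S, ∃ y, y ∈ b.1 ∧ y ∈ c.1) : ∃ y, ∀ b ∈ S, y ∈ b.1 := by
  classical
  obtain ⟨b0, hb0⟩ : S.Nonempty := card_pos.1 (by omega)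
  have hc3 : b0.1.card = 3 := hE.1 _ b0.2
  choose f hf1 hf2 using hm b0 hb0
  let g : E → Y := fun c => if hc : c ∈ S then f c hc else f b0 hb0
  have hg : ∀ c ∈ S.erase b0, g c ∈ b0.1 := by
    intro c hc
    show (if hc : c ∈ S then f c hc else f b0 hb0) ∈ b0.1
    split_ifs with h
    · exact hf1 c h
    · exact hf1 b0 hb0
  obtain ⟨p, hp, hp2⟩ := exists_lt_card_fiber_of_mul_lt_card_of_maps_to hg (n := 2) (by
    rw [card_erase_of_mem hb0, hc3]
    omega)
  let G : Finset E := insert b0 ((S.erase b0).filter fun c => g c = p)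
  have hG : 4 ≤ G.card := by
    rw [card_insert_of_notMem (by simp)]
    omega
  have hGS : G ⊆ S := by
    intro c hc
    rcases mem_insert.1 hc with rfl | h
    · exact hb0
    · exact mem_of_mem_erase (mem_filter.1 h).1
  have hGp : ∀ c ∈ G, p ∈ c.1 := by
    intro c hc
    rcases mem_insert.1 hc with rfl | h
    · exact hp
    · obtain ⟨h1, h2⟩ := mem_filter.1 h
      have h3 : c ∈ S := mem_of_mem_erase h1
      have h4 : g c = f c h3 := dif_pos h3
      rw [← h2, h4]
      exact hf2 c h3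
  refine ⟨p, fun b hb => ?_⟩
  by_contra hpb
  choose k hk1 hk2 using fun c : G => hm c.1 (hGS c.2) b hb
  have hinj : Function.Injective k := by
    intro c c' h
    have hne : p ≠ k c := fun h' => hpb (by rw [h']; exact hk2 c)
    have h1 : c.1.1 = c'.1.1 := hE.unique c.1.2 c'.1.2 hne (hGp _ c.2) (hk1 c) (hGp _ c'.2)
      (by rw [h]; exact hk1 c')
    exact Subtype.ext (Subtype.ext h1)
  have h5 : Fintype.card G ≤ Fintype.card b.1 := by
    refine Fintype.card_le_of_injective (fun c => (⟨k c, hk2 c⟩ : b.1)) fun c c' h => hinj ?_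
    exact congrArg Subtype.val h
  rw [Fintype.card_coe, Fintype.card_coe, hE.1 _ b.2] at h5
  omega

theorem exists_map (hD : IsSTS D) (hE : IsSTS E) (hX : 17 ≤ Fintype.card X)
    (Φ : blockGraph D ≃g blockGraph E) (x : X) : ∃ y : Y, ∀ b : D, x ∈ b.1 → y ∈ (Φ b).1 := by
  classical
  obtain ⟨y, hy⟩ := exists_common hE ((star D x).image Φ) (by
    rw [card_image_of_injective _ Φ.injective]
    have := card_star hD x
    omega) (by
    intro b hb c hc
    obtain ⟨b', hb', rfl⟩ := mem_image.1 hb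
    obtain ⟨c', hc', rfl⟩ := mem_image.1 hc
    by_cases h : b' = c'
    · subst h
      have h1 : (Φ b').1.card = 3 := hE.1 _ (Φ b').2
      obtain ⟨y, hy⟩ := card_pos.1 (by omega : 0 < (Φ b').1.card)
      exact ⟨y, hy, hy⟩
    · have h1 : (blockGraph D).Adj b' c' :=
        ⟨h, x, (mem_star x b').1 hb', (mem_star x c').1 hc'⟩
      exact (Φ.map_adj_iff.2 h1).2)
  exact ⟨y, fun b hb => hy _ (mem_image_of_mem _ ((mem_star x b).2 hb))⟩

theorem eq_of_all (hD : IsSTS D) (hX : 17 ≤ Fintype.card X) {x x' : X}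
    (h : ∀ b : D, x ∈ b.1 → x' ∈ b.1) : x' = x := by
  by_contra hne
  have h1 := card_star hD x
  obtain ⟨b, c, hb, hc, hbc⟩ := one_lt_card_iff.1 (by omega : 1 < (star D x).card)
  rw [mem_star] at hb hc
  exact hbc (Subtype.ext (hD.unique b.2 c.2 (Ne.symm hne) hb (h b hb) hc (h c hc)))

/-- An isomorphism of the block graphs comes from a bijection of the points. -/
theorem exists_point_equiv (hD : IsSTS D) (hE : IsSTS E) (hX : 17 ≤ Fintype.card X)
    (hY : 17 ≤ Fintype.card Y) (Φ : blockGraph D ≃g blockGraph E) :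
    ∃ φ : X ≃ Y, ∀ (b : D) (x : X), x ∈ b.1 ↔ φ x ∈ (Φ b).1 := by
  choose f hf using exists_map hD hE hX Φ
  choose g hg using exists_map hE hD hY Φ.symm
  have hgf : ∀ x, g (f x) = x := by
    intro x
    refine eq_of_all hD hX fun b hb => ?_
    have h1 := hg (f x) (Φ b) (hf x b hb)
    rwa [Φ.symm_apply_apply] at h1
  have hfg : ∀ y, f (g y) = y := by
    intro y
    refine eq_of_all hE hY fun b hb => ?_
    have h1 := hf (g y) (Φ.symm b) (hg y b hb)
    rwa [Φ.apply_symm_apply] at h1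
  refine ⟨⟨f, g, hgf, hfg⟩, fun b x => ⟨hf x b, fun h => ?_⟩⟩
  have h1 := hg (f x) (Φ b) h
  rw [Φ.symm_apply_apply, hgf] at h1
  exact h1

end

end Pool.Agent.Q245.STS
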