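import Pool.Agent.Q245.STS.Basic
import Pool.Agent.W879.GW.Grp

/-!
# The Hall triple systems of alternating maps
-/

set_option autoImplicit false
set_option linter.unusedSectionVars false

namespace Pool.Agent.Q245.STS

open Finset Pool.Agent.W879.GW

section

variable {V Γ : Type} [AddCommGroup V] [AddCommGroup Γ] [Module (ZMod 3) V] [Module (ZMod 3) Γ]

/-- The third point on the line through two points. -/
def op (β : Bil V Γ) (P Q : ZMod 3 × V × Γ) : ZMod 3 × V × Γ :=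
  (-P.1 - Q.1, -P.2.1 - Q.2.1, -P.2.2 - Q.2.2 - (P.1 - Q.1) • β.fn P.2.1 Q.2.1)

variable {β : Bil V Γ}

theorem three_eq {W : Type} [AddCommGroup W] [Module (ZMod 3) W] (v : W) : v + v + v = 0 := by
  have h : v + v + v = ((1 : ZMod 3) + 1 + 1) • v := by module
  rw [h, show ((1 : ZMod 3) + 1 + 1) = 0 by decide, zero_smul]

theorem bil_sub_left (β : Bil V Γ) (u u' v : V) : β.fn (u - u') v = β.fn u v - β.fn u' v := by
  rw [sub_eq_add_neg, β.add_left, β.neg_left, sub_eq_add_neg]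

theorem bil_sub_right (β : Bil V Γ) (u v v' : V) : β.fn u (v - v') = β.fn u v - β.fn u v' := by
  rw [sub_eq_add_neg, β.add_right, β.neg_right, sub_eq_add_neg]

theorem bil_smul_left (β : Bil V Γ) (a : ZMod 3) (u v : V) : β.fn (a • u) v = a • β.fn u v := by
  obtain ⟨n, rfl⟩ : ∃ n : ℕ, (n : ZMod 3) = a := ⟨a.val, ZMod.natCast_zmod_val a⟩
  rw [Nat.cast_smul_eq_nsmul, Nat.cast_smul_eq_nsmul, β.nsmul_left]

theorem bil_anti (hβ : ∀ v, β.fn v v = 0) (u v : V) : β.fn v u = - β.fn u v := by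
  have h := hβ (u + v)
  rw [β.add_left, β.add_right, β.add_right, hβ, hβ, zero_add, add_zero] at h
  exact eq_neg_of_add_eq_zero_right h

theorem op_comm (hβ : ∀ v, β.fn v v = 0) (P Q : ZMod 3 × V × Γ) : op β P Q = op β Q P := by
  unfold op
  rw [bil_anti hβ P.2.1 Q.2.1]
  refine Prod.ext (by ring) (Prod.ext ?_ ?_)
  · show -P.2.1 - Q.2.1 = -Q.2.1 - P.2.1
    abel
  show -P.2.2 - Q.2.2 - (P.1 - Q.1) • β.fn P.2.1 Q.2.1 =
    -Q.2.2 - P.2.2 - (Q.1 - P.1) • -β.fn P.2.1 Q.2.1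
  module

theorem op_self (hβ : ∀ v, β.fn v v = 0) (P : ZMod 3 × V × Γ) : op β P P = P := by
  unfold op
  rw [hβ]
  refine Prod.ext ?_ (Prod.ext ?_ ?_)
  · show -P.1 - P.1 = P.1
    generalize P.1 = s
    revert s
    decide
  · show -P.2.1 - P.2.1 = P.2.1
    rw [← sub_eq_zero, ← neg_zero, ← three_eq P.2.1]
    abel
  · show -P.2.2 - P.2.2 - (P.1 - P.1) • (0 : Γ) = P.2.2
    rw [smul_zero, sub_zero, ← sub_eq_zero, ← neg_zero, ← three_eq P.2.2]
    abel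

theorem op_op (hβ : ∀ v, β.fn v v = 0) (P Q : ZMod 3 × V × Γ) : op β P (op β P Q) = Q := by
  unfold op
  refine Prod.ext ?_ (Prod.ext ?_ ?_)
  · show -P.1 - (-P.1 - Q.1) = Q.1
    ring
  · show -P.2.1 - (-P.2.1 - Q.2.1) = Q.2.1
    abel
  · show -P.2.2 - (-P.2.2 - Q.2.2 - (P.1 - Q.1) • β.fn P.2.1 Q.2.1) -
      (P.1 - (-P.1 - Q.1)) • β.fn P.2.1 (-P.2.1 - Q.2.1) = Q.2.2
    rw [bil_sub_right, β.neg_right, hβ]
    generalize P.1 = s, Q.1 = t
    match_scalars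
    · ring
    · ring
    · revert s t
      decide

/-- The reflections are automorphisms. -/
theorem op_distrib (hβ : ∀ v, β.fn v v = 0) (P Q R : ZMod 3 × V × Γ) :
    op β P (op β Q R) = op β (op β P Q) (op β P R) := by
  unfold op
  refine Prod.ext ?_ (Prod.ext ?_ ?_)
  · show -P.1 - (-Q.1 - R.1) = -(-P.1 - Q.1) - (-P.1 - R.1)
    generalize P.1 = s, Q.1 = t, R.1 = r
    revert s t r
    decide
  · show -P.2.1 - (-Q.2.1 - R.2.1) = -(-P.2.1 - Q.2.1) - (-P.2.1 - R.2.1)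
    rw [← sub_eq_zero, ← neg_zero, ← three_eq P.2.1]
    abel
  · show -P.2.2 - (-Q.2.2 - R.2.2 - (Q.1 - R.1) • β.fn Q.2.1 R.2.1) -
      (P.1 - (-Q.1 - R.1)) • β.fn P.2.1 (-Q.2.1 - R.2.1) =
      -(-P.2.2 - Q.2.2 - (P.1 - Q.1) • β.fn P.2.1 Q.2.1) -
      (-P.2.2 - R.2.2 - (P.1 - R.1) • β.fn P.2.1 R.2.1) -
      ((-P.1 - Q.1) - (-P.1 - R.1)) • β.fn (-P.2.1 - Q.2.1) (-P.2.1 - R.2.1)
    simp only [bil_sub_right, bil_sub_left, β.neg_right, β.neg_left, hβ, bil_anti hβ P.2.1 Q.2.1]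
    have h1 := three_eq P.2.2
    have h2 : P.2.2 + P.2.2 = - P.2.2 := eq_neg_of_add_eq_zero_left h1
    have h3 : ∀ a b : Γ, a - b = (1 : ZMod 3) • a + (-1 : ZMod 3) • b := fun a b => by module
    have h4 : ∀ a : Γ, - a = (-1 : ZMod 3) • a := fun a => by module
    simp only [h3, h4]
    generalize P.1 = s, Q.1 = t, R.1 = r
    match_scalars <;> (revert s t r; decide)

theorem op_eq_left (hβ : ∀ v, β.fn v v = 0) {P Q : ZMod 3 × V × Γ} (h : op β P Q = P) :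
    Q = P := by
  rw [← op_op hβ P Q, h, op_self hβ]

theorem op_eq_right (hβ : ∀ v, β.fn v v = 0) {P Q : ZMod 3 × V × Γ} (h : op β P Q = Q) :
    P = Q := by
  rw [op_comm hβ] at h
  exact op_eq_left hβ h

variable [DecidableEq V] [DecidableEq Γ]

/-- The line through two points. -/
def ln (β : Bil V Γ) (P Q : ZMod 3 × V × Γ) : Finset (ZMod 3 × V × Γ) := {P, Q, op β P Q}

theorem mem_ln {P Q R : ZMod 3 × V × Γ} : R ∈ ln β P Q ↔ R = P ∨ R = Q ∨ R = op β P Q := by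
  simp [ln]

theorem card_ln (hβ : ∀ v, β.fn v v = 0) {P Q : ZMod 3 × V × Γ} (h : P ≠ Q) :
    (ln β P Q).card = 3 :=
  card_eq_three.2 ⟨P, Q, op β P Q, h, fun h' => h (op_eq_left hβ h'.symm).symm,
    fun h' => h (op_eq_right hβ h'.symm), rfl⟩

theorem ln_eq (hβ : ∀ v, β.fn v v = 0) {P Q R S : ZMod 3 × V × Γ} (h : P ≠ Q)
    (hP : P ∈ ln β R S) (hQ : Q ∈ ln β R S) : ln β R S = ln β P Q := by
  have h1 : op β R (op β R S) = S := op_op hβ R S
  have h2 : op β S (op β R S) = R := by rw [op_comm hβ R S, op_op hβ]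
  have h3 : op β (op β R S) R = S := by rw [op_comm hβ]; exact h1
  have h4 : op β (op β R S) S = R := by rw [op_comm hβ]; exact h2
  have h5 : op β S R = op β R S := op_comm hβ _ _
  ext T
  rw [mem_ln, mem_ln]
  rcases mem_ln.1 hP with rfl | rfl | rfl <;> rcases mem_ln.1 hQ with rfl | rfl | rfl
  · exact absurd rfl h
  · exact Iff.rfl
  · rw [h1]; tauto
  · rw [h5]; tauto
  · exact absurd rfl h
  · rw [h2]; tauto
  · rw [h3]; tauto
  · rw [h4]; tauto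
  · exact absurd rfl h

variable [Fintype V] [Fintype Γ]

/-- The lines. -/
def lines (β : Bil V Γ) : Finset (Finset (ZMod 3 × V × Γ)) :=
  (univ.filter fun p : (ZMod 3 × V × Γ) × (ZMod 3 × V × Γ) => p.1 ≠ p.2).image
    fun p => ln β p.1 p.2

theorem mem_lines {b : Finset (ZMod 3 × V × Γ)} :
    b ∈ lines β ↔ ∃ P Q, P ≠ Q ∧ b = ln β P Q := by
  unfold lines
  rw [mem_image]
  constructor
  · rintro ⟨p, hp, rfl⟩
    exact ⟨p.1, p.2, (mem_filter.1 hp).2, rfl⟩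
  · rintro ⟨P, Q, h, rfl⟩
    exact ⟨(P, Q), mem_filter.2 ⟨mem_univ _, h⟩, rfl⟩

theorem isSTS (hβ : ∀ v, β.fn v v = 0) : IsSTS (lines β) := by
  refine ⟨fun b hb => ?_, fun P Q h => ⟨ln β P Q, ⟨mem_lines.2 ⟨P, Q, h, rfl⟩,
    mem_ln.2 (Or.inl rfl), mem_ln.2 (Or.inr (Or.inl rfl))⟩, ?_⟩⟩
  · obtain ⟨P, Q, h, rfl⟩ := mem_lines.1 hb
    exact card_ln hβ h
  · rintro c ⟨hc, hP, hQ⟩
    obtain ⟨R, S, -, rfl⟩ := mem_lines.1 hc
    exact ln_eq hβ h hP hQ

/-- The reflection in a point. -/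
def refl (hβ : ∀ v, β.fn v v = 0) (P : ZMod 3 × V × Γ) : Equiv.Perm (ZMod 3 × V × Γ) :=
  ⟨op β P, op β P, op_op hβ P, op_op hβ P⟩

theorem refl_apply (hβ : ∀ v, β.fn v v = 0) (P Q : ZMod 3 × V × Γ) :
    refl hβ P Q = op β P Q := rfl

theorem isHall (hβ : ∀ v, β.fn v v = 0) : IsHall (lines β) := by
  refine ⟨isSTS hβ, fun P => ⟨refl hβ P, op_op hβ P, fun Q => ⟨fun h => ?_, fun h => ?_⟩, ?_⟩⟩
  · exact (op_eq_right hβ h).symm
  · rw [h]
    exact op_self hβ P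
  · intro b hb
    obtain ⟨Q, R, h, rfl⟩ := mem_lines.1 hb
    refine mem_lines.2 ⟨op β P Q, op β P R, fun h' => h ?_, ?_⟩
    · exact (refl hβ P).injective h'
    · unfold ln
      rw [image_insert, image_insert, image_singleton, refl_apply, refl_apply, refl_apply,
        op_distrib hβ]

end

end Pool.Agent.Q245.STS
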