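import Pool.Agent.Q245.STS.Hall

/-!
# Isomorphic Hall triple systems come from isomorphic groups
-/

set_option autoImplicit false
set_option linter.unusedSectionVars false

namespace Pool.Agent.Q245.STS

open Finset Pool.Agent.W879.GW

section

variable {V Γ : Type} [AddCommGroup V] [AddCommGroup Γ] [Module (ZMod 3) V] [Module (ZMod 3) Γ]

/-- The addition of the loop. -/
def ad (β : Bil V Γ) (P Q : ZMod 3 × V × Γ) : ZMod 3 × V × Γ :=
  (P.1 + Q.1, P.2.1 + Q.2.1, P.2.2 + Q.2.2 + (P.1 - Q.1) • β.fn P.2.1 Q.2.1)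

variable {β β' : Bil V Γ}

theorem op_zero (β : Bil V Γ) (P : ZMod 3 × V × Γ) : op β P 0 = -P := by
  unfold op
  refine Prod.ext ?_ (Prod.ext ?_ ?_)
  · show -P.1 - 0 = -P.1
    rw [sub_zero]
  · show -P.2.1 - 0 = -P.2.1
    rw [sub_zero]
  · show -P.2.2 - 0 - (P.1 - 0) • β.fn P.2.1 0 = -P.2.2
    rw [β.zero_right, smul_zero, sub_zero, sub_zero]

theorem neg_op (β : Bil V Γ) (P Q : ZMod 3 × V × Γ) : -op β P Q = ad β P Q := by
  refine Prod.ext ?_ (Prod.ext ?_ ?_)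
  · show -(-P.1 - Q.1) = P.1 + Q.1
    ring
  · show -(-P.2.1 - Q.2.1) = P.2.1 + Q.2.1
    abel
  · show -(-P.2.2 - Q.2.2 - (P.1 - Q.1) • β.fn P.2.1 Q.2.1) =
      P.2.2 + Q.2.2 + (P.1 - Q.1) • β.fn P.2.1 Q.2.1
    abel

/-- The points that associate with `P`. -/
def Nu (β : Bil V Γ) (P : ZMod 3 × V × Γ) : Set (ZMod 3 × V × Γ) :=
  {Q | ∀ R, ad β (ad β P Q) R = ad β P (ad β Q R)}

theorem assoc_iff (β : Bil V Γ) (P Q R : ZMod 3 × V × Γ) :
    ad β (ad β P Q) R = ad β P (ad β Q R) ↔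
      R.1 • β.fn P.2.1 Q.2.1 - Q.1 • β.fn P.2.1 R.2.1 + P.1 • β.fn Q.2.1 R.2.1 = 0 := by
  have h1 : (ad β (ad β P Q) R).2.2 = (ad β P (ad β Q R)).2.2 +
      (R.1 • β.fn P.2.1 Q.2.1 - Q.1 • β.fn P.2.1 R.2.1 + P.1 • β.fn Q.2.1 R.2.1) := by
    show P.2.2 + Q.2.2 + (P.1 - Q.1) • β.fn P.2.1 Q.2.1 + R.2.2 +
      (P.1 + Q.1 - R.1) • β.fn (P.2.1 + Q.2.1) R.2.1 =
      P.2.2 + (Q.2.2 + R.2.2 + (Q.1 - R.1) • β.fn Q.2.1 R.2.1) +
        (P.1 - (Q.1 + R.1)) • β.fn P.2.1 (Q.2.1 + R.2.1) + _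
    rw [β.add_left, β.add_right]
    generalize P.1 = s, Q.1 = t, R.1 = r
    match_scalars <;> (revert s t r; decide)
  constructor
  · intro h
    rw [h] at h1
    exact left_eq_add.1 h1
  · intro h
    rw [h, add_zero] at h1
    refine Prod.ext ?_ (Prod.ext ?_ h1)
    · show P.1 + Q.1 + R.1 = P.1 + (Q.1 + R.1)
      ring
    · show P.2.1 + Q.2.1 + R.2.1 = P.2.1 + (Q.2.1 + R.2.1)
      abel

variable [Finite V] [Finite Γ]

theorem card_Nu_le (hr : ∀ u, (∀ v, β.fn u v = 0) → u = 0) {P : ZMod 3 × V × Γ} (hP : P.1 ≠ 0) :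
    Nat.card (Nu β P) ≤ 3 * Nat.card Γ := by
  have h1 : ∀ Q ∈ Nu β P, P.1 • Q.2.1 = Q.1 • P.2.1 := by
    intro Q hQ
    rw [← sub_eq_zero]
    refine hr _ fun v => ?_
    have h2 := (assoc_iff β P Q (0, v, 0)).1 (hQ _)
    rw [zero_smul, zero_sub] at h2
    rw [bil_sub_left, bil_smul_left, bil_smul_left]
    rw [← h2]
    abel
  have h2 : Nat.card (Nu β P) ≤ Nat.card (ZMod 3 × Γ) := by
    refine Nat.card_le_card_of_injective (fun Q => (Q.1.1, Q.1.2.2)) ?_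
    intro Q Q' h
    have e1 : Q.1.1 = Q'.1.1 := congrArg (fun z : ZMod 3 × Γ => z.1) h
    have e2 : Q.1.2.2 = Q'.1.2.2 := congrArg (fun z : ZMod 3 × Γ => z.2) h
    have e3 := h1 _ Q.2
    have e4 := h1 _ Q'.2
    rw [e1, ← e4] at e3
    have e5 : P.1 • P.1 • Q.1.2.1 = P.1 • P.1 • Q'.1.2.1 := by rw [e3]
    have e6 : ∀ s : ZMod 3, s ≠ 0 → s * s = 1 := by decide
    rw [smul_smul, smul_smul, e6 _ hP, one_smul, one_smul] at e5
    exact Subtype.ext (Prod.ext e1 (Prod.ext e5 e2))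
  rwa [Nat.card_prod, Nat.card_zmod] at h2

theorem le_card_Nu {P : ZMod 3 × V × Γ} (hP : P.1 = 0) : Nat.card V ≤ Nat.card (Nu β P) := by
  classical
  have hex : ∀ c : Γ, ∃ v : V, (∃ v', β.fn P.2.1 v' = c) → β.fn P.2.1 v = c := by
    intro c
    by_cases h : ∃ v', β.fn P.2.1 v' = c
    · obtain ⟨v', hv'⟩ := h
      exact ⟨v', fun _ => hv'⟩
    · exact ⟨0, fun h' => absurd h' h⟩
  choose σ hσ using hex
  have h1 : ∀ v, β.fn P.2.1 (v - σ (β.fn P.2.1 v)) = 0 := by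
    intro v
    rw [bil_sub_right, hσ _ ⟨v, rfl⟩, sub_self]
  refine Nat.card_le_card_of_injective
    (fun v => (⟨(0, v - σ (β.fn P.2.1 v), β.fn P.2.1 v), fun R => ?_⟩ : Nu β P)) ?_
  · rw [assoc_iff]
    show R.1 • β.fn P.2.1 (v - σ (β.fn P.2.1 v)) - (0 : ZMod 3) • β.fn P.2.1 R.2.1 +
      P.1 • β.fn (v - σ (β.fn P.2.1 v)) R.2.1 = 0
    rw [h1, hP, smul_zero, zero_smul, zero_smul]
    abel
  · intro v v' h
    have h2 := congrArg (fun Q : Nu β P => Q.1.2.1) h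
    have h3 := congrArg (fun Q : Nu β P => Q.1.2.2) h
    have h4 : v - σ (β.fn P.2.1 v) = v' - σ (β.fn P.2.1 v') := h2
    have h5 : β.fn P.2.1 v = β.fn P.2.1 v' := h3
    rw [h5] at h4
    exact sub_left_injective h4

theorem iso_of_op (hβ' : ∀ v, β'.fn v v = 0)
    (hr : ∀ u, (∀ v, β.fn u v = 0) → u = 0) (hr' : ∀ u, (∀ v, β'.fn u v = 0) → u = 0)
    (hc : 3 * Nat.card Γ < Nat.card V) (φ : ZMod 3 × V × Γ ≃ ZMod 3 × V × Γ)
    (hφ : ∀ P Q, φ (op β P Q) = op β' (φ P) (φ Q)) : Nonempty (GE β ≃* GE β') := by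
  -- move the origin
  obtain ⟨ψ, hψ, hψ0⟩ : ∃ ψ : ZMod 3 × V × Γ ≃ ZMod 3 × V × Γ,
      (∀ P Q, ψ (op β P Q) = op β' (ψ P) (ψ Q)) ∧ ψ 0 = 0 := by
    refine ⟨φ.trans (refl hβ' (op β' (φ 0) 0)), fun P Q => ?_, ?_⟩
    · show op β' _ (φ (op β P Q)) = op β' (op β' _ (φ P)) (op β' _ (φ Q))
      rw [hφ, op_distrib hβ']
    · show op β' (op β' (φ 0) 0) (φ 0) = 0
      rw [op_comm hβ', op_op hβ']
  have hneg : ∀ P, ψ (-P) = -ψ P := by
    intro P
    rw [← op_zero β, hψ, hψ0, op_zero]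
  have had : ∀ P Q, ψ (ad β P Q) = ad β' (ψ P) (ψ Q) := by
    intro P Q
    rw [← neg_op, hneg, hψ, neg_op]
  have hNu : ∀ P, Nat.card (Nu β P) = Nat.card (Nu β' (ψ P)) := by
    intro P
    refine Nat.card_congr (ψ.subtypeEquiv fun Q => ?_)
    show (∀ R, ad β (ad β P Q) R = ad β P (ad β Q R)) ↔
      ∀ R, ad β' (ad β' (ψ P) (ψ Q)) R = ad β' (ψ P) (ad β' (ψ Q) R)
    constructor
    · intro h R
      obtain ⟨R, rfl⟩ := ψ.surjective R
      rw [← had, ← had, ← had, ← had, h]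
    · intro h R
      apply ψ.injective
      rw [had, had, had, had, h]
  have h0 : ∀ P, P.1 = 0 ↔ (ψ P).1 = 0 := by
    intro P
    constructor
    · intro h
      by_contra h'
      have h1 := le_card_Nu (β := β) h
      have h2 := card_Nu_le hr' h'
      rw [hNu] at h1
      omega
    · intro h
      by_contra h'
      have h1 := le_card_Nu (β := β') h
      have h2 := card_Nu_le hr h'
      rw [hNu] at h2
      omega
  let e : ZMod 3 × V × Γ := (1, 0, 0)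
  have he : (ψ e).1 ≠ 0 := by
    intro h
    have h1 : (1 : ZMod 3) = 0 := (h0 e).2 h
    exact absurd h1 (by decide)
  have h3 : ∀ s : ZMod 3, s ≠ 0 → s * s = 1 := by decide
  have hss := h3 _ he
  set s : ZMod 3 := (ψ e).1 with hs
  -- the map on the plane `s = 0`
  have key : ∀ v y : V, ∀ w x : Γ,
      (ψ (0, v + y, w + x + β.fn v y)).2.1 = (ψ (0, v, w)).2.1 + (ψ (0, y, x)).2.1 ∧
      (ψ (0, v + y, w + x + β.fn v y)).2.2 = (ψ (0, v, w)).2.2 + (ψ (0, y, x)).2.2 +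
        s • β'.fn (ψ (0, v, w)).2.1 (ψ (0, y, x)).2.1 := by
    intro v y w x
    have z1 : (ψ (0, v, w)).1 = 0 := (h0 _).1 rfl
    have z2 : (ψ (0, y, x)).1 = 0 := (h0 _).1 rfl
    have z3 : (ψ (0, v + y, w + x + β.fn v y)).1 = 0 := (h0 _).1 rfl
    have e1 : ad β e (0, v + y, w + x + β.fn v y) = ad β (ad β e (0, v, w)) (0, y, x) := by
      refine Prod.ext ?_ (Prod.ext ?_ ?_)
      · show (1 : ZMod 3) + 0 = 1 + 0 + 0
        rw [add_zero, add_zero]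
      · show (0 : V) + (v + y) = 0 + v + y
        abel
      · show (0 : Γ) + (w + x + β.fn v y) + ((1 : ZMod 3) - 0) • β.fn 0 (v + y) =
          (0 + w + ((1 : ZMod 3) - 0) • β.fn 0 v) + x + ((1 : ZMod 3) + 0 - 0) • β.fn (0 + v) y
        rw [β.zero_left, β.zero_left, zero_add v, smul_zero, sub_zero, add_zero (1 : ZMod 3),
          one_smul]
        abel
    have e2 := congrArg ψ e1
    rw [had, had, had] at e2
    have e3 := congrArg (fun P => P.2.1) e2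
    have e4 := congrArg (fun P => P.2.2) e2
    have e5 : (ψ e).2.1 + (ψ (0, v + y, w + x + β.fn v y)).2.1 =
      (ψ e).2.1 + (ψ (0, v, w)).2.1 + (ψ (0, y, x)).2.1 := e3
    have e6 : (ψ (0, v + y, w + x + β.fn v y)).2.1 = (ψ (0, v, w)).2.1 + (ψ (0, y, x)).2.1 := by
      have e9 := e5.trans (add_assoc _ _ _)
      exact add_left_cancel e9
    refine ⟨e6, ?_⟩
    have e7 : (ψ e).2.2 + (ψ (0, v + y, w + x + β.fn v y)).2.2 +
        ((ψ e).1 - (ψ (0, v + y, w + x + β.fn v y)).1) •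
          β'.fn (ψ e).2.1 (ψ (0, v + y, w + x + β.fn v y)).2.1 =
        ((ψ e).2.2 + (ψ (0, v, w)).2.2 + ((ψ e).1 - (ψ (0, v, w)).1) •
          β'.fn (ψ e).2.1 (ψ (0, v, w)).2.1) + (ψ (0, y, x)).2.2 +
        ((ψ e).1 + (ψ (0, v, w)).1 - (ψ (0, y, x)).1) •
          β'.fn ((ψ e).2.1 + (ψ (0, v, w)).2.1) (ψ (0, y, x)).2.1 := e4
    rw [z1, z2, z3, e6, sub_zero, add_zero, sub_zero, ← hs, β'.add_right, β'.add_left] at e7
    have e8 : ∀ a b c d p r t : Γ, a + b + s • (c + d) = (a + p + s • c) + r + s • (d + t) →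
        b = p + r + s • t := by
      intro a b c d p r t h
      have h' : (a + s • c + s • d) + b = (a + s • c + s • d) + (p + r + s • t) := by
        have e9 : (a + s • c + s • d) + b = a + b + s • (c + d) := by
          rw [smul_add]
          abel
        rw [e9, h, smul_add]
        abel
      exact add_left_cancel h'
    exact e8 _ _ _ _ _ _ _ e7
  let θ : GE β → GE β' := fun a => mk β' (ψ (0, vc a, zc a)).2.1 (s • (ψ (0, vc a, zc a)).2.2)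
  have hθ : ∀ a b, θ (a * b) = θ a * θ b := by
    intro a b
    obtain ⟨k1, k2⟩ := key (vc a) (vc b) (zc a) (zc b)
    refine GE_ext ?_ ?_
    · exact k1
    · show s • (ψ (0, vc a + vc b, zc a + zc b + β.fn (vc a) (vc b))).2.2 =
        s • (ψ (0, vc a, zc a)).2.2 + s • (ψ (0, vc b, zc b)).2.2 +
        β'.fn (ψ (0, vc a, zc a)).2.1 (ψ (0, vc b, zc b)).2.1
      rw [k2, smul_add, smul_add, smul_smul, hss, one_smul]
  have hinj : Function.Injective θ := by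
    intro a b h
    have h1' : vc (θ a) = vc (θ b) := by rw [h]
    have h2' : zc (θ a) = zc (θ b) := by rw [h]
    have h1 : (ψ (0, vc a, zc a)).2.1 = (ψ (0, vc b, zc b)).2.1 := h1'
    have h2 : s • (ψ (0, vc a, zc a)).2.2 = s • (ψ (0, vc b, zc b)).2.2 := h2'
    have h4 : (ψ (0, vc a, zc a)).2.2 = (ψ (0, vc b, zc b)).2.2 := by
      have h5 : s • s • (ψ (0, vc a, zc a)).2.2 = s • s • (ψ (0, vc b, zc b)).2.2 := by rw [h2]
      rwa [smul_smul, smul_smul, hss, one_smul, one_smul] at h5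
    have z1 : (ψ (0, vc a, zc a)).1 = 0 := (h0 _).1 rfl
    have z2 : (ψ (0, vc b, zc b)).1 = 0 := (h0 _).1 rfl
    have h6 : ψ (0, vc a, zc a) = ψ (0, vc b, zc b) :=
      Prod.ext (z1.trans z2.symm) (Prod.ext h1 h4)
    have h7 := ψ.injective h6
    exact GE_ext (congrArg (fun P => P.2.1) h7) (congrArg (fun P => P.2.2) h7)
  have hfin : Finite (GE β) := inferInstanceAs (Finite (V × Γ))
  have hfin' : Finite (GE β') := inferInstanceAs (Finite (V × Γ))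
  have hcard : Nat.card (GE β) = Nat.card (GE β') := rfl
  have hbij : Function.Bijective θ :=
    Nat.bijective_iff_injective_and_card θ |>.2 ⟨hinj, hcard⟩
  exact ⟨MulEquiv.ofBijective (MulHom.mk θ hθ) hbij⟩

end

section

variable {V Γ : Type} [AddCommGroup V] [AddCommGroup Γ] [Module (ZMod 3) V] [Module (ZMod 3) Γ]
  [Fintype V] [Fintype Γ] [DecidableEq V] [DecidableEq Γ] {β β' : Bil V Γ}

theorem op_of_blocks (hβ : ∀ v, β.fn v v = 0) (hβ' : ∀ v, β'.fn v v = 0)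
    (Φ : lines β → lines β') (φ : ZMod 3 × V × Γ ≃ ZMod 3 × V × Γ)
    (h : ∀ (b : lines β) (x : ZMod 3 × V × Γ), x ∈ b.1 ↔ φ x ∈ (Φ b).1)
    (P Q : ZMod 3 × V × Γ) : φ (op β P Q) = op β' (φ P) (φ Q) := by
  by_cases hPQ : P = Q
  · subst hPQ
    rw [op_self hβ, op_self hβ']
  let b : lines β := ⟨ln β P Q, mem_lines.2 ⟨P, Q, hPQ, rfl⟩⟩
  have h1 : φ P ∈ (Φ b).1 := (h b P).1 (mem_ln.2 (Or.inl rfl))
  have h2 : φ Q ∈ (Φ b).1 := (h b Q).1 (mem_ln.2 (Or.inr (Or.inl rfl)))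
  have h3 : φ (op β P Q) ∈ (Φ b).1 := (h b _).1 (mem_ln.2 (Or.inr (Or.inr rfl)))
  obtain ⟨R, S, -, hRS⟩ := mem_lines.1 (Φ b).2
  rw [hRS] at h1 h2 h3
  rw [ln_eq hβ' (fun h' => hPQ (φ.injective h')) h1 h2] at h3
  rcases mem_ln.1 h3 with h4 | h4 | h4
  · exact absurd (op_eq_left hβ (φ.injective h4)).symm hPQ
  · exact absurd (op_eq_right hβ (φ.injective h4)) hPQ
  · exact h4

theorem iso_of_graph (hβ : ∀ v, β.fn v v = 0) (hβ' : ∀ v, β'.fn v v = 0)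
    (hr : ∀ u, (∀ v, β.fn u v = 0) → u = 0) (hr' : ∀ u, (∀ v, β'.fn u v = 0) → u = 0)
    (hc : 3 * Nat.card Γ < Nat.card V) (h6 : 6 ≤ Nat.card Γ)
    (Φ : blockGraph (lines β) ≃g blockGraph (lines β')) : Nonempty (GE β ≃* GE β') := by
  have hcard : 17 ≤ Fintype.card (ZMod 3 × V × Γ) := by
    rw [← Nat.card_eq_fintype_card, Nat.card_prod, Nat.card_prod, Nat.card_zmod]
    have h1 : 18 * 6 ≤ Nat.card V * Nat.card Γ := Nat.mul_le_mul (by omega) h6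
    omega
  obtain ⟨φ, hφ⟩ := exists_point_equiv (isSTS hβ) (isSTS hβ') hcard hcard Φ
  exact iso_of_op hβ' hr hr' hc φ (op_of_blocks hβ hβ' Φ φ hφ)

end

end Pool.Agent.Q245.STS
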