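import Pool.Agent.TH658.Sos.Im
import Pool.Agent.W879.GW.WL

/-!
# Locally consistent affine systems and the Weisfeiler-Leman method
-/

set_option autoImplicit false
set_option linter.unusedSectionVars false

namespace Pool.Agent.Q245.STS

open Pool.Agent.TH658.Sos Pool.Agent.TH658.Sos.Act Pool.Agent.W185.SRG Pool.Agent.W879.GW

variable {X L : Type} [AddCommGroup X] [SemilatticeSup L] [OrderBot L] {S : Sys X L}
  {V V' : Type} {G : SimpleGraph V} {H : SimpleGraph V'}

theorem wl_of_act [Fintype V] [Fintype V'] (A : Act S G H) {k : ℕ} (hk : A.c * (k + 1) ≤ S.K) :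
    WLEquivalent k G H := by
  classical
  have hk1 : A.c * k + A.c ≤ S.K := by
    rw [mul_add, mul_one] at hk
    exact hk
  have sz : ∀ u : Fin k → V, S.size (lvT A.lv u) ≤ A.c * k := by
    intro u
    have h := A.size_lvT u
    rwa [Fintype.card_fin] at h
  have hpt : ∀ W, S.size W ≤ S.K → S.pt W ∈ S.Sol W := fun W h => S.pt_mem (S.nonempty W h)
  have lb : ∀ (M : X) (w : Fin k → V), lvT A.lv' (fun a => A.b M (w a)) = lvT A.lv w :=
    fun M w => lvT_congr fun a => A.lev M _
  have ls : ∀ (M : X) (w : V'), A.lv ((A.b M).symm w) = A.lv' w := by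
    intro M w
    rw [← A.lev M, Equiv.apply_symm_apply]
  have lbs : ∀ (M : X) (w : Fin k → V'), lvT A.lv (fun a => (A.b M).symm (w a)) = lvT A.lv' w :=
    fun M w => lvT_congr fun a => ls M _
  refine ⟨⟨fun u i => A.b (S.pt (lvT A.lv u)) (u i),
    fun v i => (A.b (S.pt (lvT A.lv' v))).symm (v i), ?_, ?_⟩, fun t u => ?_⟩
  · intro u
    funext i
    show (A.b (S.pt (lvT A.lv' fun i => A.b (S.pt (lvT A.lv u)) (u i)))).symm
      (A.b (S.pt (lvT A.lv u)) (u i)) = u i
    rw [lb, Equiv.symm_apply_apply]
  · intro v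
    funext i
    show A.b (S.pt (lvT A.lv fun i => (A.b (S.pt (lvT A.lv' v))).symm (v i)))
      ((A.b (S.pt (lvT A.lv' v))).symm (v i)) = v i
    rw [lbs, Equiv.apply_symm_apply]
  · refine wl_of_good G H (fun u v => ∃ M ∈ S.Sol (lvT A.lv u), v = fun a => A.b M (u a))
      ?_ ?_ t u _ ⟨S.pt _, hpt _ ((sz u).trans (by omega)), rfl⟩
    · rintro u _ ⟨M, hM, rfl⟩
      refine Prod.ext ?_ ?_
      · funext i j
        exact propext ⟨fun h => congrArg (A.b M) h, fun h => (A.b M).injective h⟩
      · funext i j
        exact propext (A.iso _ _ M (S.Sol_anti _ _ (sup_le (lv_le_lvT u i) (lv_le_lvT u j)) hM))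
    · rintro u _ ⟨M, hM, rfl⟩
      have hex : ∀ W : L, ∃ M' : X, S.size W ≤ A.c →
          M' ∈ S.Sol (lvT A.lv u ⊔ W) ∧ M' - M ∈ S.N (lvT A.lv u) := by
        intro W
        by_cases hW : S.size W ≤ A.c
        · obtain ⟨M', h1, h2⟩ := S.extend (lvT A.lv u) (lvT A.lv u ⊔ W) le_sup_left (by
            have h1 := S.size_sup (lvT A.lv u) W
            have h2 := sz u
            omega) M hM
          exact ⟨M', fun _ => ⟨h1, h2⟩⟩
        · exact ⟨0, fun h => absurd h hW⟩
      choose M' hM' using hex
      refine ⟨⟨fun x => A.b (M' (A.lv x)) x, fun y => (A.b (M' (A.lv' y))).symm y, ?_, ?_⟩, ?_⟩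
      · intro x
        show (A.b (M' (A.lv' (A.b (M' (A.lv x)) x)))).symm (A.b (M' (A.lv x)) x) = x
        rw [A.lev, Equiv.symm_apply_apply]
      · intro y
        show A.b (M' (A.lv ((A.b (M' (A.lv' y))).symm y))) ((A.b (M' (A.lv' y))).symm y) = y
        rw [ls, Equiv.apply_symm_apply]
      · intro x i
        obtain ⟨h1, h2⟩ := hM' (A.lv x) (A.size x)
        refine ⟨M' (A.lv x), S.Sol_anti _ _ (Finset.sup_le fun j _ => ?_) h1, ?_⟩
        · by_cases hj : j = i
          · subst hj
            rw [Function.update_self]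
            exact le_sup_right
          · rw [Function.update_of_ne hj]
            exact (lv_le_lvT u j).trans le_sup_left
        · funext j
          by_cases hj : j = i
          · subst hj
            rw [Function.update_self, Function.update_self]
            rfl
          · rw [Function.update_of_ne hj, Function.update_of_ne hj]
            have h3 := A.inv M (M' (A.lv x) - M) (u j) (S.N_anti _ _ (lv_le_lvT u j) h2)
            rw [add_sub_cancel] at h3
            exact h3.symm

end Pool.Agent.Q245.STS
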