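import Pool.Agent.Q245.STS.Act
import Pool.Agent.Q245.STS.Wl
import Pool.Agent.Q245.STS.Iso

/-!
# Hall triple systems that are hard to tell apart
-/

set_option autoImplicit false
set_option linter.unusedSectionVars false

namespace Pool.Agent.Q245.STS

open Finset Module Pool.Agent.W185.SRG Pool.Agent.W879.GW Pool.Agent.TH658.Sos

theorem rad_bet {A : Type} [AddCommGroup A] [Module (ZMod 3) A] [FiniteDimensional (ZMod 3) A]
    {g : ℕ} {q : Fin g → (Dual (ZMod 3) A →ₗ[ZMod 3] A)}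
    {B : Submodule (ZMod 3) (Fin g → Dual (ZMod 3) A)}
    {f : A →ₗ[ZMod 3] A →ₗ[ZMod 3] (Fin g → ZMod 3)}
    (halt : ∀ (i : Fin g) (φ : Dual (ZMod 3) A), φ (q i φ) = 0) {m : ℕ} (hE : Expands q m)
    (hg : 2 ≤ g) (ha : finrank (ZMod 3) A < (g - 1) * (2 * m)) (hB : B = LinearMap.ker (tot q))
    (u : A × B) (hu : ∀ v, (bet B f).fn u v = 0) : u = 0 := by
  have h1 : u.1 = 0 := by
    by_contra hne
    have hW : Submodule.span (ZMod 3) {u.1} ≠ ⊥ := by
      rw [Ne, Submodule.span_singleton_eq_bot]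
      exact hne
    have h2 := dim_ineq halt hE hg ha _ hW
    rw [← hB] at h2
    have h3 : B ≤ B ⊓ CW (Submodule.span (ZMod 3) {u.1}) := by
      intro c hc
      refine ⟨hc, fun i x hx => ?_⟩
      have h4 := hu (0, ⟨c, hc⟩)
      rw [bet_apply] at h4
      have h5 := congrFun h4 i
      have h6 : f u.1 0 i + ((u.2 : Fin g → Dual (ZMod 3) A) i 0 - c i u.1) = 0 := h5
      rw [map_zero, map_zero] at h6
      have h7 : c i u.1 = 0 := by
        have h8 : (0 : ZMod 3) + (0 - c i u.1) = 0 := h6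
        linear_combination -h8
      obtain ⟨a, rfl⟩ := Submodule.mem_span_singleton.1 hx
      rw [map_smul, h7, smul_zero]
    have h4 := Submodule.finrank_mono h3
    omega
  have h2 : u.2 = 0 := by
    refine Subtype.ext (funext fun i => LinearMap.ext fun x => ?_)
    have h4 := hu (x, 0)
    rw [bet_apply, h1] at h4
    have h5 := congrFun h4 i
    have h6 : f 0 x i + ((u.2 : Fin g → Dual (ZMod 3) A) i x -
      ((0 : B) : Fin g → Dual (ZMod 3) A) i 0) = 0 := h5
    rw [map_zero, map_zero] at h6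
    have h7 : (0 : ZMod 3) + ((u.2 : Fin g → Dual (ZMod 3) A) i x - 0) = 0 := h6
    rw [zero_add, sub_zero] at h7
    exact h7
  exact Prod.ext h1 h2

/-- The pairs of Hall triple systems. -/
theorem core (K : ℕ) (hK : 2 ≤ K) :
    ∃ (X : Type) (_ : Fintype X) (_ : DecidableEq X) (D E : Finset (Finset X)) (r : ℕ),
      r ≤ 168 * K + 7 ∧ Fintype.card X = 3 ^ r ∧ IsHall D ∧ IsHall E ∧
      IsEmpty (blockGraph D ≃g blockGraph E) ∧
      (∀ k, 1 ≤ k → 8 * k ≤ K → IMEquiv 3 k (blockGraph D) (blockGraph E) ∧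
        WLEquivalent k (blockGraph D) (blockGraph E)) ∧
      ∀ d, 6 * (d + 1) ≤ K → (∀ (F : Type) [Field F], (3 : F) ≠ 0 →
        ¬ PCRefutes F (blockGraph D) (blockGraph E) d) ∧
        ¬ PosRefutes (blockGraph D) (blockGraph E) d := by
  classical
  have : Fact (Nat.Prime 3) := ⟨Nat.prime_three⟩
  obtain ⟨q, halt, hE⟩ := exists_expander (F := ZMod 3) (4 * K)
  have hfr : finrank (ZMod 3) (Fin (6 * (4 * K)) → ZMod 3) = 6 * (4 * K) :=
    Module.finrank_fin_fun _
  obtain ⟨φ₀, c₀, h0⟩ := exists_target hE (by omega) (by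
    rw [hfr]
    omega)
  let A : Type := Fin (6 * (4 * K)) → ZMod 3
  let B : Submodule (ZMod 3) (Fin 6 → Dual (ZMod 3) A) := LinearMap.ker (tot q)
  let f : A →ₗ[ZMod 3] A →ₗ[ZMod 3] (Fin 6 → ZMod 3) := T (φ₀.smulRight c₀)
  have hfin : Finite (Dual (ZMod 3) A) := Module.finite_of_finite (ZMod 3)
  have hfin2 : Finite (Fin 6 → Dual (ZMod 3) A) := inferInstance
  have hfinB : Finite B := inferInstance
  have : Fintype B := Fintype.ofFinite B
  have : Fintype A := inferInstance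
  have : FiniteDimensional (ZMod 3) A := Module.Finite.of_finite
  have hcB : Fintype.card B = 3 ^ finrank (ZMod 3) B := by
    rw [← Nat.card_eq_fintype_card, Module.natCard_eq_pow_finrank (K := ZMod 3), Nat.card_zmod]
  have hcA : Fintype.card A = 3 ^ (6 * (4 * K)) := by
    rw [← Nat.card_eq_fintype_card, Module.natCard_eq_pow_finrank (K := ZMod 3), Nat.card_zmod,
      hfr]
  have hcG : Fintype.card (Fin 6 → ZMod 3) = 3 ^ 6 := by
    rw [Fintype.card_fun, ZMod.card, Fintype.card_fin]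
  have hcard : Fintype.card (Pt B) = 3 ^ (1 + (6 * (4 * K) + finrank (ZMod 3) B + 6)) := by
    rw [Fintype.card_prod, Fintype.card_prod, Fintype.card_prod, hcB, hcA, hcG, ZMod.card,
      ← pow_add, ← pow_add, pow_add 3 1, pow_one]
  have hfrB : finrank (ZMod 3) B ≤ 6 * (6 * (4 * K)) := by
    refine (Submodule.finrank_le _).trans (le_of_eq ?_)
    rw [Module.finrank_pi_fintype]
    simp only [Subspace.dual_finrank_eq, Finset.sum_const, Finset.card_univ, Fintype.card_fin,
      smul_eq_mul]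
    exact congrArg (fun x => 6 * x) hfr
  have ha : finrank (ZMod 3) A < (6 - 1) * (2 * (4 * K)) := by
    show finrank (ZMod 3) (Fin (6 * (4 * K)) → ZMod 3) < _
    rw [hfr]
    omega
  have hiso : IsEmpty (GE (bet B f) ≃* GE (bet B 0)) :=
    not_iso (by decide) halt hE (by omega) ha rfl φ₀ c₀ h0 rfl
  have hbf : ∀ v, (bet B f).fn v v = 0 := by
    intro v
    rw [bet_apply, sub_self, add_zero]
    funext i
    show T (φ₀.smulRight c₀) v.1 v.1 i = 0
    rw [T_apply, sub_self]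
  have hb0 : ∀ v, (bet B (0 : A →ₗ[ZMod 3] A →ₗ[ZMod 3] (Fin 6 → ZMod 3))).fn v v = 0 := by
    intro v
    rw [bet_apply, sub_self, add_zero]
    rfl
  refine ⟨Pt B, inferInstance, _, lines (bet B f), lines (bet B 0),
    1 + (6 * (4 * K) + finrank (ZMod 3) B + 6), by omega, hcard, isHall hbf, isHall hb0, ?_,
    ?_, ?_⟩
  · refine ⟨fun Φ => ?_⟩
    obtain ⟨θ⟩ := iso_of_graph hbf hb0
      (fun u hu => rad_bet halt hE (by omega) ha rfl u hu)
      (fun u hu => rad_bet halt hE (by omega) ha rfl u hu) (by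
        rw [Nat.card_prod, Nat.card_eq_fintype_card, Nat.card_eq_fintype_card (α := A),
          Nat.card_eq_fintype_card (α := B), hcG, hcA]
        have h1 : 0 < Fintype.card B := Fintype.card_pos
        calc 3 * 3 ^ 6 < 3 ^ 8 := by norm_num
          _ ≤ 3 ^ (6 * (4 * K)) := Nat.pow_le_pow_right (by norm_num) (by omega)
          _ ≤ 3 ^ (6 * (4 * K)) * Fintype.card B := Nat.le_mul_of_pos_right _ h1) (by
        rw [Nat.card_eq_fintype_card, hcG]
        norm_num) Φ
    exact hiso.false θ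
  · intro k hk hkK
    have hfinM : Finite (A →ₗ[ZMod 3] B) := Module.finite_of_finite (ZMod 3)
    have : Fintype (A →ₗ[ZMod 3] B) := Fintype.ofFinite _
    have hcX : ∃ m, Fintype.card (A →ₗ[ZMod 3] B) = 3 ^ m := by
      refine ⟨finrank (ZMod 3) (A →ₗ[ZMod 3] B), ?_⟩
      rw [← Nat.card_eq_fintype_card, Module.natCard_eq_pow_finrank (K := ZMod 3), Nat.card_zmod]
    let act := stAct (B := B) (f := f) halt hE rfl φ₀ c₀ rfl hK
    refine ⟨act.imEquiv (stAct_torsor halt hE rfl φ₀ c₀ rfl hK) (fun K' _ hpK => ?_) ?_ ?_,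
      wl_of_act act ?_⟩
    · obtain ⟨m, hm⟩ := hcX
      rw [hm, Nat.cast_pow]
      exact pow_ne_zero _ hpK
    · show 4 * (2 * k) ≤ K
      omega
    · show 2 + 2 ≤ K
      omega
    · show 2 * (k + 1) ≤ K
      omega
  · intro d hd
    have hfinM : Finite (A →ₗ[ZMod 3] B) := Module.finite_of_finite (ZMod 3)
    have : Fintype (A →ₗ[ZMod 3] B) := Fintype.ofFinite _
    have hcX : ∃ m, Fintype.card (A →ₗ[ZMod 3] B) = 3 ^ m := by
      refine ⟨finrank (ZMod 3) (A →ₗ[ZMod 3] B), ?_⟩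
      rw [← Nat.card_eq_fintype_card, Module.natCard_eq_pow_finrank (K := ZMod 3), Nat.card_zmod]
    let act := stAct (B := B) (f := f) halt hE rfl φ₀ c₀ rfl hK
    refine ⟨fun F _ hpF => act.not_pcRefutes F ?_ (d := d) ?_, act.not_posRefutes (d := d) ?_⟩
    · obtain ⟨m, hm⟩ := hcX
      rw [hm, Nat.cast_pow]
      exact pow_ne_zero _ (by exact_mod_cast hpF)
    · show 3 * (2 * (d + 1)) ≤ K
      omega
    · show 3 * (2 * (d + 1)) ≤ K
      omega

end Pool.Agent.Q245.STS
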